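import Pool.Agent.P.MP_c64be1_ag.Asy.Main2

namespace Pool.Agent.Results.MP_c64be1_ag.Cofinite

open Pool.Agent.P.MP_c64be1_ag

/-- For every `r ≥ 1`, the generic `Sub_r (S^k V)`-rank is the value given by the dimension count
for all but finitely many pairs `(n, k)` with `k ≥ 3` and `n = dim V > 3 r`. -/
theorem result (r : ℕ) (hr : 1 ≤ r) : ∃ B : ℕ, ∀ n k : ℕ, 3 ≤ k → 3 * r < n → B ≤ n + k →
    IsLeast {s : ℕ | SecantFills (Fin n) k r s}
      ((n + k - 1).choose k ⌈/⌉ (r * (n - r) + (r + k - 1).choose k)) :=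
  Asy.isLeast_cofinite r hr

end Pool.Agent.Results.MP_c64be1_ag.Cofinite
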