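import Pool.Agent.P.MP_c64be1_ag.Sh.Main

namespace Pool.Agent.Results.MP_c64be1_ag.GrowthInK

open Pool.Agent.P.MP_c64be1_ag Filter Topology

/-- For `2 ≤ r < n = dim V` the generic `Sub_r (S^k V)`-rank `g k` is asymptotic to
`σ * k ^ (n - r)` as `k → ∞`, where `σ` is the least positive zero of
`∑ j, (-x) ^ j / (j ! * (n - 1 - j * (n - r)) !)`, summed over `j * (n - r) ≤ n - 1`. -/
theorem result (n r : ℕ) (h2 : 2 ≤ r) (hr : r < n) : ∃ (σ : ℝ) (g : ℕ → ℕ),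
    IsLeast {x : ℝ | 0 < x ∧ ∑ j ∈ (Finset.range n).filter fun j => j * (n - r) ≤ n - 1,
      (-x) ^ j / ((j.factorial : ℝ) * ((n - 1 - j * (n - r)).factorial : ℝ)) = 0} σ ∧
    (∀ k, IsLeast {s : ℕ | SecantFills (Fin n) k r s} (g k)) ∧
    Tendsto (fun k : ℕ => (g k : ℝ) / (k : ℝ) ^ (n - r)) atTop (𝓝 σ) := by
  obtain ⟨m, rfl⟩ := Nat.exists_eq_add_of_le' (show 1 ≤ r by omega)
  obtain ⟨c, rfl⟩ := Nat.exists_eq_add_of_le hr.le
  have h := Sh.growth (c := c) (m := m) (by omega) (by omega)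
  simp only [Sh.PP_sum] at h
  rwa [Nat.add_sub_cancel_left, show m + 1 + c - 1 = m + c by omega,
    show Finset.range (m + 1 + c) = Finset.range (m + c + 1) by rw [Nat.add_right_comm]]

end Pool.Agent.Results.MP_c64be1_ag.GrowthInK
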