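import Pool.Agent.P.MP_c64be1_ag.Ell.Main

namespace Pool.Agent.Results.MP_c64be1_ag.HalfRange

open Pool.Agent.P.MP_c64be1_ag

/-- For fixed degree `k ≥ 3` and large `n = dim V`, the dimension count `D` gives the generic
`Sub_r (S^k V)`-rank `g` asymptotically, `D ≤ g < (1 + ε) D + 1`, uniformly for all `r ≥ 1` with
`(2 ^ k - 1) r ^ k ≤ n ^ k` (in particular for all `r ≤ n / 2`). -/
theorem result (k : ℕ) (hk : 3 ≤ k) (ε : ℝ) (hε : 0 < ε) : ∃ n₀ : ℕ, ∀ n ≥ n₀, ∀ r : ℕ,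
    1 ≤ r → (2 ^ k - 1) * r ^ k ≤ n ^ k → ∃ g : ℕ, IsLeast {s : ℕ | SecantFills (Fin n) k r s} g ∧
      ((n + k - 1).choose k : ℝ) / (r * (n - r) + (r + k - 1).choose k) ≤ g ∧
      g < (1 + ε) * (((n + k - 1).choose k : ℝ) / (r * (n - r) + (r + k - 1).choose k)) + 1 :=
  Ell.asymptotic k hk ε hε

end Pool.Agent.Results.MP_c64be1_ag.HalfRange
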