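import Pool.Agent.P.MP_c64be1_ag.Main

namespace Pool.Agent.Results.MP_c64be1_ag.LargeR

open Pool.Agent.P.MP_c64be1_ag

/-- The generic `Sub_r (S^k V)`-rank for `dim V = n`, `k ≥ 3`, `r ≤ n - 2` and
`(k + 1) (n - r) ≤ n`. -/
theorem result (n k r : ℕ) (hk : 3 ≤ k) (hr : r + 2 ≤ n) (hn : (k + 1) * (n - r) ≤ n) :
    IsLeast {s : ℕ | SecantFills (Fin n) k r s}
      (if (n - r) ^ (k - 1) ≤ k * r then k else k + 1) :=
  isLeast_large hk hr hn

end Pool.Agent.Results.MP_c64be1_ag.LargeR
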